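import Pool.Agent.H99.R2.Mkd

/-!
# Three leaves through a point: the point is full

`x = (y, z, v, N)`. Three leaves (graphs of two functions of `(y, z)`, affine, slopes `s i ω b j`)
pass through the point; `(y, z)` is full given each leaf. If the determinant of the differences of
two slopes is at least `δ`, the point is full.
-/

set_option autoImplicit false

namespace Pool.R2M

open Finset Real
open Pool.Agent.H49.Ent Pool.Agent.H32.Dense Pool.STK Pool.MKE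

variable {Ω S T U κ : Type} [Fintype Ω]

/-- The other base coordinate. -/
def oth (b : Fin 2) : Fin 2 := 1 - b

/-- The direction `b` of a leaf with slopes `s`. -/
def dir (s : Fin 2 → Fin 2 → ℝ) (b : Fin 2) : Fin 4 → ℝ :=
  ![if b = 0 then 1 else 0, if b = 1 then 1 else 0, s b 0, s b 1]

/-- The coordinate along the third direction, times the determinant. -/
def al (s : Fin 2 → Fin 2 → ℝ) (r : Fin 2 → ℝ) : Fin 4 → ℝ :=
  ![-(s 0 0 * r 1) + s 0 1 * r 0, -(s 1 0 * r 1) + s 1 1 * r 0, r 1, -r 0]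

/-- The coordinate along the fourth direction, times the determinant. -/
def be (s : Fin 2 → Fin 2 → ℝ) (p : Fin 2 → ℝ) : Fin 4 → ℝ :=
  ![-(p 0 * s 0 1) + p 1 * s 0 0, -(p 0 * s 1 1) + p 1 * s 1 0, -p 1, p 0]

/-- The directions of the three leaves. -/
def dd (s : Fin 3 → Fin 2 → Fin 2 → ℝ) (b2 b3 : Fin 2) : Fin 4 → Fin 4 → ℝ :=
  ![dir (s 0) 0, dir (s 0) 1, dir (s 1) b2, dir (s 2) b3]

/-- The determinant. -/
def dt (s : Fin 3 → Fin 2 → Fin 2 → ℝ) (b2 b3 : Fin 2) : ℝ :=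
  (s 1 b2 0 - s 0 b2 0) * (s 2 b3 1 - s 0 b3 1) - (s 1 b2 1 - s 0 b2 1) * (s 2 b3 0 - s 0 b3 0)

/-- The dual basis (`D` is the inverse of the determinant). -/
def eD (s : Fin 3 → Fin 2 → Fin 2 → ℝ) (b2 b3 : Fin 2) (D : ℝ) : Fin 4 → Fin 4 → ℝ :=
  ![fun k => (if k = 0 then 1 else 0) -
      (if b2 = 0 then al (s 0) (fun j => s 2 b3 j - s 0 b3 j) k * D else 0) -
      (if b3 = 0 then be (s 0) (fun j => s 1 b2 j - s 0 b2 j) k * D else 0),
    fun k => (if k = 1 then 1 else 0) -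
      (if b2 = 1 then al (s 0) (fun j => s 2 b3 j - s 0 b3 j) k * D else 0) -
      (if b3 = 1 then be (s 0) (fun j => s 1 b2 j - s 0 b2 j) k * D else 0),
    fun k => al (s 0) (fun j => s 2 b3 j - s 0 b3 j) k * D,
    fun k => be (s 0) (fun j => s 1 b2 j - s 0 b2 j) k * D]

theorem dd_inv (s : Fin 3 → Fin 2 → Fin 2 → ℝ) (b2 b3 : Fin 2) {D : ℝ} (h' : dt s b2 b3 * D = 1)
    (v : Fin 4 → ℝ) (j : Fin 4) :
    v j = ∑ i, dd s b2 b3 i j * ∑ k, eD s b2 b3 D i k * v k := by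
  unfold dt at h'
  unfold dd dir eD al be
  fin_cases b2 <;> fin_cases b3 <;> fin_cases j <;>
    simp [Fin.sum_univ_four] at h' ⊢ <;>
    first
    | ring1
    | linear_combination (-(v 2 - v 0 * s 0 0 0 - v 1 * s 0 1 0)) * h'
    | linear_combination (-(v 3 - v 0 * s 0 0 1 - v 1 * s 0 1 1)) * h'

theorem dir_le {s : Fin 2 → Fin 2 → ℝ} (h : ∀ b j, |s b j| ≤ 1) (b : Fin 2) (j : Fin 4) :
    |dir s b j| ≤ 1 := by
  unfold dir
  fin_cases b <;> fin_cases j <;> simp [h]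

theorem dd_le {s : Fin 3 → Fin 2 → Fin 2 → ℝ} (h : ∀ i b j, |s i b j| ≤ 1) (b2 b3 : Fin 2)
    (i j : Fin 4) : |dd s b2 b3 i j| ≤ 1 := by
  unfold dd
  fin_cases i
  · exact dir_le (h 0) 0 j
  · exact dir_le (h 0) 1 j
  · exact dir_le (h 1) b2 j
  · exact dir_le (h 2) b3 j

theorem al_le {s : Fin 2 → Fin 2 → ℝ} {r : Fin 2 → ℝ} (h : ∀ b j, |s b j| ≤ 1)
    (hr : ∀ j, |r j| ≤ 2) (k : Fin 4) : |al s r k| ≤ 4 := by
  have h2 : ∀ (a b : ℝ), |a| ≤ 1 → |b| ≤ 2 → |a * b| ≤ 2 := by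
    intro a b ha hb
    rw [abs_mul]
    nlinarith [abs_nonneg a, abs_nonneg b]
  have h3 : ∀ (a b c d : ℝ), |a| ≤ 1 → |b| ≤ 2 → |c| ≤ 1 → |d| ≤ 2 → |-(a * b) + c * d| ≤ 4 := by
    intro a b c d ha hb hc hd
    have e1 := h2 a b ha hb
    have e2 := h2 c d hc hd
    rw [abs_le] at e1 e2 ⊢
    constructor <;> linarith
  unfold al
  fin_cases k
  · exact h3 _ _ _ _ (h 0 0) (hr 1) (h 0 1) (hr 0)
  · exact h3 _ _ _ _ (h 1 0) (hr 1) (h 1 1) (hr 0)
  · exact (hr 1).trans (by norm_num)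
  · have := hr 0
    change |-r 0| ≤ 4
    rw [abs_neg]
    linarith

theorem be_le {s : Fin 2 → Fin 2 → ℝ} {p : Fin 2 → ℝ} (h : ∀ b j, |s b j| ≤ 1)
    (hp : ∀ j, |p j| ≤ 2) (k : Fin 4) : |be s p k| ≤ 4 := by
  have h2 : ∀ (a b : ℝ), |a| ≤ 2 → |b| ≤ 1 → |a * b| ≤ 2 := by
    intro a b ha hb
    rw [abs_mul]
    nlinarith [abs_nonneg a, abs_nonneg b]
  have h3 : ∀ (a b c d : ℝ), |a| ≤ 2 → |b| ≤ 1 → |c| ≤ 2 → |d| ≤ 1 → |-(a * b) + c * d| ≤ 4 := by
    intro a b c d ha hb hc hd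
    have e1 := h2 a b ha hb
    have e2 := h2 c d hc hd
    rw [abs_le] at e1 e2 ⊢
    constructor <;> linarith
  unfold be
  fin_cases k
  · exact h3 _ _ _ _ (hp 0) (h 0 1) (hp 1) (h 0 0)
  · exact h3 _ _ _ _ (hp 0) (h 1 1) (hp 1) (h 1 0)
  · have := hp 1
    change |-p 1| ≤ 4
    rw [abs_neg]
    linarith
  · exact (hp 0).trans (by norm_num)

theorem eD_le {s : Fin 3 → Fin 2 → Fin 2 → ℝ} (h : ∀ i b j, |s i b j| ≤ 1) (b2 b3 : Fin 2)
    {D M : ℝ} (hD : |D| ≤ M) (hM : 1 ≤ M) (i k : Fin 4) : |eD s b2 b3 D i k| ≤ 9 * M := by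
  have hr : ∀ j, |s 2 b3 j - s 0 b3 j| ≤ 2 := fun j => by
    have e1 := h 2 b3 j
    have e2 := h 0 b3 j
    rw [abs_le] at *
    constructor <;> linarith
  have hp : ∀ j, |s 1 b2 j - s 0 b2 j| ≤ 2 := fun j => by
    have e1 := h 1 b2 j
    have e2 := h 0 b2 j
    rw [abs_le] at *
    constructor <;> linarith
  have a1 : |al (s 0) (fun j => s 2 b3 j - s 0 b3 j) k * D| ≤ 4 * M := by
    rw [abs_mul]
    exact mul_le_mul (al_le (h 0) hr k) hD (abs_nonneg _) (by norm_num)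
  have a2 : |be (s 0) (fun j => s 1 b2 j - s 0 b2 j) k * D| ≤ 4 * M := by
    rw [abs_mul]
    exact mul_le_mul (be_le (h 0) hp k) hD (abs_nonneg _) (by norm_num)
  have h3 : ∀ (P Q R : Prop) [Decidable P] [Decidable Q] [Decidable R] (u v : ℝ),
      |u| ≤ 4 * M → |v| ≤ 4 * M →
      |(if P then 1 else 0) - (if Q then u else 0) - (if R then v else 0)| ≤ 9 * M := by
    intro P Q R _ _ _ u v hu hv
    have e1 : |(if P then (1 : ℝ) else 0)| ≤ M := by
      split_ifs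
      · rw [abs_one]; exact hM
      · rw [abs_zero]; linarith
    have e2 : |(if Q then u else 0)| ≤ 4 * M := by
      split_ifs
      · exact hu
      · rw [abs_zero]; linarith
    have e3 : |(if R then v else 0)| ≤ 4 * M := by
      split_ifs
      · exact hv
      · rw [abs_zero]; linarith
    rw [abs_le] at *
    constructor <;> linarith
  unfold eD
  fin_cases i
  · exact h3 _ _ _ _ _ a1 a2
  · exact h3 _ _ _ _ _ a1 a2
  · exact a1.trans (by linarith)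
  · exact a2.trans (by linarith)

/-- The groups. -/
def gg : Fin 4 → Fin 3 := ![0, 0, 1, 2]

/-- The base point. -/
def bas (x : Fin 4 → ℝ) : Fin 2 → ℝ := ![x 0, x 1]

/-- The number of bits. -/
noncomputable def tb (δ B : ℝ) : ℝ := tt (9 * δ⁻¹) (B + 1)

/-- The constant of `mk4`. -/
noncomputable def C4 : ℝ := Cd 4 3 + 4

theorem one_dir {x x' : Fin 4 → ℝ} {s : Fin 2 → Fin 2 → ℝ} (hs : ∀ b j, |s b j| ≤ 1) (b : Fin 2)
    {B : ℝ} (hB : 0 ≤ B) {R : ℕ}
    (h : ∀ j : Fin 2, |x (Fin.natAdd 2 j) - x' (Fin.natAdd 2 j) -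
        (s 0 j * (x 0 - x' 0) + s 1 j * (x 1 - x' 1))| ≤ B / 2 ^ R)
    (ho : |bas x (oth b) - bas x' (oth b)| ≤ 1 / 2 ^ R) (j : Fin 4) :
    |x j - x' j - (bas x b - bas x' b) * dir s b j| ≤ (B + 1) / 2 ^ R := by
  have h2 : (0 : ℝ) < 2 ^ R := by positivity
  have e0 : (B + 1) / 2 ^ R = B / 2 ^ R + 1 / 2 ^ R := add_div _ _ _
  have hB2 : 0 ≤ B / 2 ^ R := by positivity
  have h12 : 0 ≤ 1 / (2 : ℝ) ^ R := by positivity
  rw [e0]
  have hm : ∀ (a t : ℝ), |a| ≤ 1 → |t| ≤ 1 / 2 ^ R → |a * t| ≤ 1 / 2 ^ R := by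
    intro a t ha ht
    rw [abs_mul]
    nlinarith [abs_nonneg a, abs_nonneg t]
  have h0 := h 0
  have h1 := h 1
  have k0 : (Fin.natAdd 2 (0 : Fin 2)) = (2 : Fin 4) := rfl
  have k1 : (Fin.natAdd 2 (1 : Fin 2)) = (3 : Fin 4) := rfl
  rw [k0] at h0
  rw [k1] at h1
  fin_cases b
  · have ho' : |x 1 - x' 1| ≤ 1 / 2 ^ R := ho
    fin_cases j
    · change |x 0 - x' 0 - (x 0 - x' 0) * 1| ≤ _
      rw [mul_one, sub_self, abs_zero]
      linarith
    · change |x 1 - x' 1 - (x 0 - x' 0) * 0| ≤ _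
      rw [mul_zero, sub_zero]
      linarith
    · change |x 2 - x' 2 - (x 0 - x' 0) * s 0 0| ≤ _
      have e1 := hm _ _ (hs 1 0) ho'
      rw [abs_le] at *
      constructor <;> linarith
    · change |x 3 - x' 3 - (x 0 - x' 0) * s 0 1| ≤ _
      have e1 := hm _ _ (hs 1 1) ho'
      rw [abs_le] at *
      constructor <;> linarith
  · have ho' : |x 0 - x' 0| ≤ 1 / 2 ^ R := ho
    fin_cases j
    · change |x 0 - x' 0 - (x 1 - x' 1) * 0| ≤ _
      rw [mul_zero, sub_zero]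
      linarith
    · change |x 1 - x' 1 - (x 1 - x' 1) * 1| ≤ _
      rw [mul_one, sub_self, abs_zero]
      linarith
    · change |x 2 - x' 2 - (x 1 - x' 1) * s 1 0| ≤ _
      have e1 := hm _ _ (hs 0 0) ho'
      rw [abs_le] at *
      constructor <;> linarith
    · change |x 3 - x' 3 - (x 1 - x' 1) * s 1 1| ≤ _
      have e1 := hm _ _ (hs 0 1) ho'
      rw [abs_le] at *
      constructor <;> linarith

theorem log_seven : Real.log 7 ≤ 2 := by
  have : Real.log 7 ≤ Real.log (Real.exp 2) := by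
    refine Real.log_le_log (by norm_num) ?_
    have h1 : Real.exp 2 = Real.exp 1 * Real.exp 1 := by rw [← Real.exp_add]; norm_num
    have h2 := Real.exp_one_gt_d9
    rw [h1]
    nlinarith
  rwa [Real.log_exp] at this

/-- The entropy of one coordinate. -/
theorem one_coord {p : Ω → ℝ} (hp : IsLaw p) {f : Ω → ℝ} {R : ℕ}
    (hx : ∀ ω, 0 < p ω → |f ω| ≤ 1) (W : Ω → T) :
    CH p (fun ω => ⌊(2 : ℝ) ^ R * f ω⌋) W ≤ R * Real.log 2 + 2 := by
  have h0 : CH p (fun ω => ⌊(2 : ℝ) ^ R * f ω⌋) W ≤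
      CH p (fun ω (_ : Fin 1) => ⌊(2 : ℝ) ^ R * f ω⌋) W := by
    refine CH_mono_left hp.nonneg fun ω ω' _ _ hh => ?_
    exact congrFun (Prod.ext_iff.1 hh).1 0
  have h1 := CH_vecc (L := 2 * 2 ^ R + 1) hp (fun ω (_ : Fin 1) => ⌊(2 : ℝ) ^ R * f ω⌋) W ?_
  · refine (h0.trans h1).trans ?_
    have h2m : (1 : ℝ) ≤ 2 ^ R := one_le_pow₀ (by norm_num)
    have e2 : Real.log (2 * (2 * 2 ^ R + 1) + 1) ≤ Real.log 7 + Real.log (2 ^ R) := by
      rw [← Real.log_mul (by positivity) (by positivity)]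
      exact Real.log_le_log (by positivity) (by linarith)
    rw [Real.log_pow] at e2
    have := log_seven
    rw [Nat.cast_one, one_mul]
    linarith
  · intro ω ω' h0 h0' _ _
    refine floor_two ?_
    have h5 := hx ω h0
    have h6 := hx ω' h0'
    rw [← mul_sub, abs_mul, abs_of_pos (by positivity : (0 : ℝ) < 2 ^ R), mul_comm]
    refine mul_le_mul_of_nonneg_right ?_ (by positivity)
    rw [abs_le] at *
    constructor <;> linarith

/-- **Three leaves through the point.** -/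
theorem mk4 {p : Ω → ℝ} (hp : IsLaw p) {x : Ω → Fin 4 → ℝ}
    {s : Ω → Fin 3 → Fin 2 → Fin 2 → ℝ} {B δ : ℝ} {R : ℕ} (hB : 0 ≤ B) (hδ : 0 < δ) (hδ1 : δ ≤ 1)
    (hx : ∀ ω, 0 < p ω → ∀ j, |x ω j| ≤ 1)
    (hs : ∀ ω, 0 < p ω → ∀ i b j, |s ω i b j| ≤ 1)
    (b2 b3 : Fin 2) (hdt : ∀ ω, 0 < p ω → δ ≤ |dt (s ω) b2 b3|)
    {Λ : Fin 3 → Type} (K : ∀ i, Ω → Λ i) (W : Ω → κ)
    (hl : ∀ i ω ω', 0 < p ω → 0 < p ω' → K i ω = K i ω' → W ω = W ω' → ∀ j : Fin 2,
      |x ω (Fin.natAdd 2 j) - x ω' (Fin.natAdd 2 j) -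
        (s ω i 0 j * (x ω 0 - x ω' 0) + s ω i 1 j * (x ω 1 - x ω' 1))| ≤ B / 2 ^ R)
    {e : Fin 3 → ℝ} (hf : ∀ i, 2 * R * Real.log 2 - e i ≤
      CH p (fun ω => fl R (bas (x ω))) (fun ω => (K i ω, W ω))) :
    4 * R * Real.log 2 - (e 0 + e 1 + e 2) - C4 * (√(tb δ B * R) + tb δ B) ≤
      CH p (fun ω => fl R (x ω)) W := by
  classical
  have hp0 := hp.nonneg
  have hδi : 1 ≤ δ⁻¹ := (one_le_inv₀ hδ).2 hδ1
  have hK0 : (0 : ℝ) ≤ 9 * δ⁻¹ := by positivity
  have hB1 : (0 : ℝ) ≤ B + 1 := by linarith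
  have ht : 1 ≤ tb δ B := one_le_tt hK0 hB1
  have hne : ∀ ω, 0 < p ω → dt (s ω) b2 b3 ≠ 0 := by
    intro ω h0 h
    have h1 := hdt ω h0
    rw [h, abs_zero] at h1
    linarith
  have hbas : ∀ ω, 0 < p ω → ∀ b, |bas (x ω) b| ≤ 1 := by
    intro ω h0 b
    fin_cases b
    · exact hx ω h0 0
    · exact hx ω h0 1
  set ex : Fin 3 → Ω → ℤ := ![fun _ => 0, fun ω => ⌊(2 : ℝ) ^ R * bas (x ω) (oth b2)⌋,
    fun ω => ⌊(2 : ℝ) ^ R * bas (x ω) (oth b3)⌋] with hex
  have main := mkd (K := 9 * δ⁻¹) (B := B + 1) hp (x := x)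
    (d := fun ω => dd (s ω) b2 b3) (e := fun ω => eD (s ω) b2 b3 (dt (s ω) b2 b3)⁻¹) R hK0 hB1 hx
    (fun ω h0 v j => dd_inv (s ω) b2 b3 (mul_inv_cancel₀ (hne ω h0)) v j)
    (fun ω h0 i j => dd_le (hs ω h0) b2 b3 i j)
    (fun ω h0 i j => eD_le (hs ω h0) b2 b3 (by
      rw [abs_inv]
      exact inv_anti₀ hδ (hdt ω h0)) hδi i j) gg
    (fun a ω => (K a ω, ex a ω)) W ?_
  · have low0 : 2 * R * Real.log 2 - e 0 ≤
        CH p (fun ω => fl R (x ω)) (fun ω => ((K 0 ω, ex 0 ω), W ω)) := by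
      refine (hf 0).trans ?_
      have e1 : CH p (fun ω => fl R (x ω)) (fun ω => ((K 0 ω, ex 0 ω), W ω)) =
          CH p (fun ω => fl R (x ω)) (fun ω => (K 0 ω, W ω)) := by
        refine CH_congr hp0 (fun _ _ _ _ h => (Prod.ext_iff.1 h).1)
          (fun _ _ _ _ h => (Prod.ext_iff.1 h).1) ?_ ?_
        · intro ω ω' _ _ hh
          simp only [Prod.mk.injEq] at hh ⊢
          exact ⟨hh.1.1, hh.2⟩
        · intro ω ω' _ _ hh
          simp only [Prod.mk.injEq] at hh ⊢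
          exact ⟨⟨hh.1, rfl⟩, hh.2⟩
      rw [e1]
      refine CH_mono_left hp0 fun ω ω' _ _ hh => ?_
      have h1 : fl R (x ω) = fl R (x ω') := (Prod.ext_iff.1 hh).1
      funext b
      fin_cases b
      · exact congrFun h1 0
      · exact congrFun h1 1
    have lowi : ∀ (i : Fin 3) (b : Fin 2),
        (∀ ω, ex i ω = ⌊(2 : ℝ) ^ R * bas (x ω) (oth b)⌋) →
        R * Real.log 2 - e i - 2 ≤
          CH p (fun ω => fl R (x ω)) (fun ω => ((K i ω, ex i ω), W ω)) := by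
      intro i b hib
      have e1 : CH p (fun ω => fl R (bas (x ω))) (fun ω => ((K i ω, ex i ω), W ω)) ≤
          CH p (fun ω => fl R (x ω)) (fun ω => ((K i ω, ex i ω), W ω)) := by
        refine CH_mono_left hp0 fun ω ω' _ _ hh => ?_
        have h1 : fl R (x ω) = fl R (x ω') := (Prod.ext_iff.1 hh).1
        funext b
        fin_cases b
        · exact congrFun h1 0
        · exact congrFun h1 1
      have e2 : CH p (fun ω => (fl R (bas (x ω)), ex i ω)) (fun ω => (K i ω, W ω)) =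
          CH p (fun ω => fl R (bas (x ω))) (fun ω => (ex i ω, (K i ω, W ω))) +
            CH p (ex i) (fun ω => (K i ω, W ω)) := by
        have := CH_chain hp0 (fun ω => fl R (bas (x ω))) (ex i) (fun ω => (K i ω, W ω))
        linarith
      have e3 : CH p (fun ω => fl R (bas (x ω))) (fun ω => (ex i ω, (K i ω, W ω))) =
          CH p (fun ω => fl R (bas (x ω))) (fun ω => ((K i ω, ex i ω), W ω)) := by
        refine CH_congr hp0 (fun _ _ _ _ h => (Prod.ext_iff.1 h).1)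
          (fun _ _ _ _ h => (Prod.ext_iff.1 h).1) ?_ ?_
        · intro ω ω' _ _ hh
          simp only [Prod.mk.injEq] at hh ⊢
          exact ⟨⟨hh.2.1, hh.1⟩, hh.2.2⟩
        · intro ω ω' _ _ hh
          simp only [Prod.mk.injEq] at hh ⊢
          exact ⟨hh.1.2, hh.1.1, hh.2⟩
      have e4 : CH p (fun ω => fl R (bas (x ω))) (fun ω => (K i ω, W ω)) ≤
          CH p (fun ω => (fl R (bas (x ω)), ex i ω)) (fun ω => (K i ω, W ω)) := by
        refine CH_mono_left hp0 fun ω ω' _ _ hh => ?_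
        exact (Prod.ext_iff.1 (Prod.ext_iff.1 hh).1).1
      have e5 : CH p (ex i) (fun ω => (K i ω, W ω)) ≤ R * Real.log 2 + 2 := by
        have h1 : ex i = fun ω => ⌊(2 : ℝ) ^ R * bas (x ω) (oth b)⌋ := funext hib
        rw [h1]
        exact one_coord hp (fun ω h0 => hbas ω h0 _) _
      have e6 := hf i
      linarith
    have low1 := lowi 1 b2 (fun ω => rfl)
    have low2 := lowi 2 b3 (fun ω => rfl)
    rw [Fin.sum_univ_three] at main
    have hq : 0 ≤ √(tb δ B * R) := Real.sqrt_nonneg _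
    have h9 : C4 * (√(tb δ B * R) + tb δ B) = Cd 4 3 * (√(tb δ B * R) + tb δ B) +
        4 * (√(tb δ B * R) + tb δ B) := by
      unfold C4
      ring
    change _ ≤ _ + Cd 4 3 * (√(tb δ B * R) + tb δ B) at main
    linarith
  · intro a ω ω' h0 h0' h1 h2
    have hK : K a ω = K a ω' := (Prod.ext_iff.1 h1).1
    have hE : ex a ω = ex a ω' := (Prod.ext_iff.1 h1).2
    have hL := hl a ω ω' h0 h0' hK h2
    have hse := hs ω h0 a
    have h2R : (0 : ℝ) < 2 ^ R := by positivity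
    have hfl : ∀ b, ⌊(2 : ℝ) ^ R * bas (x ω) b⌋ = ⌊(2 : ℝ) ^ R * bas (x ω') b⌋ →
        |bas (x ω) b - bas (x ω') b| ≤ 1 / 2 ^ R := by
      intro b hb
      have h3 := floor_same hb
      rw [← mul_sub, abs_mul, abs_of_pos h2R] at h3
      rw [le_div_iff₀ h2R]
      linarith
    fin_cases a
    · refine ⟨![x ω 0 - x ω' 0, x ω 1 - x ω' 1, 0, 0], ?_, ?_⟩
      · intro i hi
        fin_cases i
        · exact absurd rfl hi
        · exact absurd rfl hi
        · rfl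
        · rfl
      · have hL0 := hL 0
        have hL1 := hL 1
        have hle : B / 2 ^ R ≤ (B + 1) / 2 ^ R :=
          div_le_div_of_nonneg_right (by linarith) h2R.le
        have hz : 0 ≤ (B + 1) / 2 ^ R := by positivity
        intro j
        rw [Fin.sum_univ_four]
        fin_cases j
        · change |x ω 0 - x ω' 0 - ((x ω 0 - x ω' 0) * 1 + (x ω 1 - x ω' 1) * 0 +
            0 * dd (s ω) b2 b3 2 0 + 0 * dd (s ω) b2 b3 3 0)| ≤ _
          have e1 : x ω 0 - x ω' 0 - ((x ω 0 - x ω' 0) * 1 + (x ω 1 - x ω' 1) * 0 +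
            0 * dd (s ω) b2 b3 2 0 + 0 * dd (s ω) b2 b3 3 0) = 0 := by ring
          rw [e1, abs_zero]
          exact hz
        · change |x ω 1 - x ω' 1 - ((x ω 0 - x ω' 0) * 0 + (x ω 1 - x ω' 1) * 1 +
            0 * dd (s ω) b2 b3 2 1 + 0 * dd (s ω) b2 b3 3 1)| ≤ _
          have e1 : x ω 1 - x ω' 1 - ((x ω 0 - x ω' 0) * 0 + (x ω 1 - x ω' 1) * 1 +
            0 * dd (s ω) b2 b3 2 1 + 0 * dd (s ω) b2 b3 3 1) = 0 := by ring
          rw [e1, abs_zero]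
          exact hz
        · refine le_trans (le_of_eq ?_) (hL0.trans hle)
          congr 1
          change x ω 2 - x ω' 2 - ((x ω 0 - x ω' 0) * s ω 0 0 0 + (x ω 1 - x ω' 1) * s ω 0 1 0 +
            0 * dd (s ω) b2 b3 2 2 + 0 * dd (s ω) b2 b3 3 2) = x ω 2 - x ω' 2 -
            (s ω 0 0 0 * (x ω 0 - x ω' 0) + s ω 0 1 0 * (x ω 1 - x ω' 1))
          ring
        · refine le_trans (le_of_eq ?_) (hL1.trans hle)
          congr 1
          change x ω 3 - x ω' 3 - ((x ω 0 - x ω' 0) * s ω 0 0 1 + (x ω 1 - x ω' 1) * s ω 0 1 1 +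
            0 * dd (s ω) b2 b3 2 3 + 0 * dd (s ω) b2 b3 3 3) = x ω 3 - x ω' 3 -
            (s ω 0 0 1 * (x ω 0 - x ω' 0) + s ω 0 1 1 * (x ω 1 - x ω' 1))
          ring
    · have h5 := one_dir hse b2 hB hL (hfl _ hE)
      refine ⟨![0, 0, bas (x ω) b2 - bas (x ω') b2, 0], ?_, ?_⟩
      · intro i hi
        fin_cases i
        · rfl
        · rfl
        · exact absurd rfl hi
        · rfl
      · intro j
        rw [Fin.sum_univ_four]
        refine le_trans (le_of_eq ?_) (h5 j)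
        congr 1
        change x ω j - x ω' j - (0 * dd (s ω) b2 b3 0 j + 0 * dd (s ω) b2 b3 1 j +
          (bas (x ω) b2 - bas (x ω') b2) * dir (s ω 1) b2 j + 0 * dd (s ω) b2 b3 3 j) =
          x ω j - x ω' j - (bas (x ω) b2 - bas (x ω') b2) * dir (s ω 1) b2 j
        ring
    · have h5 := one_dir hse b3 hB hL (hfl _ hE)
      refine ⟨![0, 0, 0, bas (x ω) b3 - bas (x ω') b3], ?_, ?_⟩
      · intro i hi
        fin_cases i
        · rfl
        · rfl
        · rfl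
        · exact absurd rfl hi
      · intro j
        rw [Fin.sum_univ_four]
        refine le_trans (le_of_eq ?_) (h5 j)
        congr 1
        change x ω j - x ω' j - (0 * dd (s ω) b2 b3 0 j + 0 * dd (s ω) b2 b3 1 j +
          0 * dd (s ω) b2 b3 2 j + (bas (x ω) b3 - bas (x ω') b3) * dir (s ω 2) b3 j) =
          x ω j - x ω' j - (bas (x ω) b3 - bas (x ω') b3) * dir (s ω 2) b3 j
        ring

theorem tb_le {δ B : ℝ} (hB : 0 ≤ B) (hδ : 0 < δ) (hδ1 : δ ≤ 1) :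
    tb δ B ≤ 4 + Real.log δ⁻¹ + Real.log (B + 2) := by
  have hδi : 1 ≤ δ⁻¹ := (one_le_inv₀ hδ).2 hδ1
  have l10 : Real.log 10 ≤ 3 := by
    have : Real.log 10 ≤ Real.log (Real.exp 3) := by
      refine Real.log_le_log (by norm_num) ?_
      have h1 : Real.exp 3 = Real.exp 1 * (Real.exp 1 * Real.exp 1) := by
        rw [← Real.exp_add, ← Real.exp_add]; norm_num
      have h2 := Real.exp_one_gt_d9
      rw [h1]
      nlinarith
    rwa [Real.log_exp] at this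
  have e1 : Real.log (9 * δ⁻¹ + 1) ≤ Real.log 10 + Real.log δ⁻¹ := by
    rw [← Real.log_mul (by norm_num) (by positivity)]
    exact Real.log_le_log (by positivity) (by linarith)
  unfold tb tt
  have e2 : B + 1 + 1 = B + 2 := by ring
  rw [e2]
  linarith

/-- **The determinant is small.** If the point is nonfull for all laws of density at most `1 / c`,
the determinant is at least `δ` with probability less than `c`. -/
theorem det_small {p : Ω → ℝ} (hp : IsLaw p) {x : Ω → Fin 4 → ℝ}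
    {s : Ω → Fin 3 → Fin 2 → Fin 2 → ℝ} {B δ c : ℝ} {R : ℕ} (hc : 0 < c) (hB : 0 ≤ B)
    (hδ : 0 < δ) (hδ1 : δ ≤ 1)
    (hx : ∀ ω, 0 < p ω → ∀ j, |x ω j| ≤ 1)
    (hs : ∀ ω, 0 < p ω → ∀ i b j, |s ω i b j| ≤ 1) (b2 b3 : Fin 2)
    {Λ : Fin 3 → Type} (K : ∀ i, Ω → Λ i) (W : Ω → κ)
    (hl : ∀ i ω ω', 0 < p ω → 0 < p ω' → K i ω = K i ω' → W ω = W ω' → ∀ j : Fin 2,
      |x ω (Fin.natAdd 2 j) - x ω' (Fin.natAdd 2 j) -
        (s ω i 0 j * (x ω 0 - x ω' 0) + s ω i 1 j * (x ω 1 - x ω' 1))| ≤ B / 2 ^ R)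
    {e : Fin 3 → ℝ}
    (hf : ∀ q : Ω → ℝ, IsLaw q → (∀ ω, c * q ω ≤ p ω) → ∀ i, 2 * R * Real.log 2 - e i ≤
      CH q (fun ω => fl R (bas (x ω))) (fun ω => (K i ω, W ω)))
    (hN : ∀ q : Ω → ℝ, IsLaw q → (∀ ω, c * q ω ≤ p ω) → CH q (fun ω => fl R (x ω)) W <
      4 * R * Real.log 2 - (e 0 + e 1 + e 2) - C4 * (√(tb δ B * R) + tb δ B)) :
    (∑ ω, if δ ≤ |dt (s ω) b2 b3| then p ω else 0) < c := by
  classical
  by_contra hcon
  push Not at hcon
  set P := ∑ ω, if δ ≤ |dt (s ω) b2 b3| then p ω else 0 with hP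
  have hP0 : 0 < P := lt_of_lt_of_le hc hcon
  have hp0 := hp.nonneg
  set q : Ω → ℝ := fun ω => (if δ ≤ |dt (s ω) b2 b3| then p ω else 0) / P with hq
  have hq0 : ∀ ω, 0 ≤ q ω := by
    intro ω
    refine div_nonneg ?_ hP0.le
    split_ifs
    · exact hp0 ω
    · exact le_rfl
  have hqs : ∑ ω, q ω = 1 := by
    rw [hq, ← Finset.sum_div]
    exact div_self hP0.ne'
  have hqL : IsLaw q := ⟨hq0, hqs⟩
  have hqp : ∀ ω, c * q ω ≤ p ω := by
    intro ω
    have h1 : c * q ω = (c / P) * (if δ ≤ |dt (s ω) b2 b3| then p ω else 0) := by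
      simp only [hq]
      ring
    have h2 : c / P ≤ 1 := (div_le_one hP0).2 hcon
    have h3 : 0 ≤ c / P := div_nonneg hc.le hP0.le
    rw [h1]
    split_ifs
    · have := hp0 ω
      nlinarith
    · rw [mul_zero]
      exact hp0 ω
  have hpos : ∀ ω, 0 < q ω → 0 < p ω := by
    intro ω h0
    have h1 := hqp ω
    have h2 : 0 < c * q ω := mul_pos hc h0
    linarith
  have hE : ∀ ω, 0 < q ω → δ ≤ |dt (s ω) b2 b3| := by
    intro ω h0
    by_contra h1
    have h2 : q ω = 0 := by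
      simp only [hq]
      rw [if_neg h1, zero_div]
    rw [h2] at h0
    exact lt_irrefl _ h0
  have h1 := mk4 hqL hB hδ hδ1 (fun ω h => hx ω (hpos ω h)) (fun ω h => hs ω (hpos ω h)) b2 b3 hE
    K W (fun i ω ω' h h' => hl i ω ω' (hpos ω h) (hpos ω' h')) (e := e) (hf q hqL hqp)
  have h2 := hN q hqL hqp
  linarith

end Pool.R2M
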