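import Pool.Agent.H99.R2.Mk4

/-!
# Three leaves through a point: sizes `2 ^ h`

The theorems `mkd` and `mk4` with coordinates and slopes bounded by `2 ^ h` instead of `1`.
-/

set_option autoImplicit false

namespace Pool.R2M

open Finset Real
open Pool.Agent.H49.Ent Pool.Agent.H32.Dense Pool.STK Pool.MKE

variable {Ω S T U κ : Type} [Fintype Ω] {c r : ℕ}

/-- The digits of a scaled point. -/
theorem fl_scale (R h : ℕ) (x : Fin c → ℝ) : fl (R + h) (fun j => x j / 2 ^ h) = fl R x := by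
  funext j
  change ⌊(2 : ℝ) ^ (R + h) * (x j / 2 ^ h)⌋ = ⌊(2 : ℝ) ^ R * x j⌋
  congr 1
  rw [pow_add]
  have : (0 : ℝ) < 2 ^ h := by positivity
  field_simp

/-- The number of bits, with sizes `2 ^ h`. -/
noncomputable def th (h : ℕ) (K B : ℝ) : ℝ := tt (2 ^ h * K) B + h

theorem one_le_th {h : ℕ} {K B : ℝ} (hK : 0 ≤ K) (hB : 0 ≤ B) : 1 ≤ th h K B := by
  have h1 : 1 ≤ tt (2 ^ h * K) B := one_le_tt (by positivity) hB
  have h2 : (0 : ℝ) ≤ h := Nat.cast_nonneg h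
  unfold th
  linarith

theorem sqrt_bd {t R h : ℝ} (ht : 0 ≤ t) (hR : 0 ≤ R) (hh : 0 ≤ h) :
    √(t * (R + h)) + t ≤ 2 * (√((t + h) * R) + (t + h)) := by
  have h1 : √(t * (R + h)) ≤ √((t + h) * R) + (t + h) := by
    have h2 : 0 ≤ √((t + h) * R) + (t + h) := by positivity
    rw [Real.sqrt_le_left h2]
    have h3 : √((t + h) * R) * √((t + h) * R) = (t + h) * R := Real.mul_self_sqrt (by positivity)
    have h4 : 0 ≤ √((t + h) * R) := Real.sqrt_nonneg _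
    have h5 : 0 ≤ h * R := mul_nonneg hh hR
    have h6 : 0 ≤ t * h := mul_nonneg ht hh
    have h7 : 0 ≤ √((t + h) * R) * (t + h) := by positivity
    nlinarith
  have h8 := Real.sqrt_nonneg ((t + h) * R)
  linarith

/-- **Multilinear Kakeya in entropy form, directions and coordinates of size `2 ^ h`.** -/
theorem mkdh {p : Ω → ℝ} (hp : IsLaw p) {x : Ω → Fin c → ℝ} {e d : Ω → Fin c → Fin c → ℝ}
    {K B : ℝ} (R h : ℕ) (hK : 0 ≤ K) (hB : 0 ≤ B)
    (hx : ∀ ω, 0 < p ω → ∀ j, |x ω j| ≤ 2 ^ h)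
    (hinv : ∀ ω, 0 < p ω → ∀ (v : Fin c → ℝ) (j : Fin c),
      v j = ∑ i, d ω i j * ∑ k, e ω i k * v k)
    (hd : ∀ ω, 0 < p ω → ∀ i j, |d ω i j| ≤ 2 ^ h) (he : ∀ ω, 0 < p ω → ∀ i j, |e ω i j| ≤ K)
    (g : Fin c → Fin r) {Λ : Fin r → Type} (Lam : ∀ a, Ω → Λ a) (W : Ω → κ)
    (hl : ∀ a ω ω', 0 < p ω → 0 < p ω' → Lam a ω = Lam a ω' → W ω = W ω' →
      ∃ l : Fin c → ℝ, (∀ i, g i ≠ a → l i = 0) ∧
        ∀ j, |x ω j - x ω' j - ∑ i, l i * d ω i j| ≤ B / 2 ^ R) :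
    ∑ a, CH p (fun ω => fl R (x ω)) (fun ω => (Lam a ω, W ω)) ≤
      CH p (fun ω => fl R (x ω)) W + 2 * Cd c r * (√(th h K B * R) + th h K B) := by
  have h2 : (0 : ℝ) < 2 ^ h := by positivity
  have main := mkd (K := 2 ^ h * K) (B := B) hp (x := fun ω j => x ω j / 2 ^ h)
    (d := fun ω i j => d ω i j / 2 ^ h) (e := fun ω i j => 2 ^ h * e ω i j) (R + h)
    (by positivity) hB
    (fun ω h0 j => by
      rw [abs_div, abs_of_pos h2, div_le_one h2]
      exact hx ω h0 j)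
    (fun ω h0 v j => by
      refine (hinv ω h0 v j).trans (Finset.sum_congr rfl fun i _ => ?_)
      have e1 : ∑ k, 2 ^ h * e ω i k * v k = 2 ^ h * ∑ k, e ω i k * v k := by
        rw [Finset.mul_sum]
        exact Finset.sum_congr rfl fun k _ => by ring
      rw [e1]
      field_simp)
    (fun ω h0 i j => by
      rw [abs_div, abs_of_pos h2, div_le_one h2]
      exact hd ω h0 i j)
    (fun ω h0 i j => by
      rw [abs_mul, abs_of_pos h2]
      exact mul_le_mul_of_nonneg_left (he ω h0 i j) h2.le) g Lam W ?_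
  · simp only [fl_scale] at main
    refine main.trans ?_
    have ht : 1 ≤ tt (2 ^ h * K) B := one_le_tt (by positivity) hB
    have h3 := sqrt_bd (t := tt (2 ^ h * K) B) (R := R) (h := h) (by linarith)
      (Nat.cast_nonneg R) (Nat.cast_nonneg h)
    have h4 := mul_le_mul_of_nonneg_left h3 (Cd_nonneg c r)
    have e1 : ((R + h : ℕ) : ℝ) = (R : ℝ) + h := by push_cast; ring
    rw [e1]
    unfold th
    linarith
  · intro a ω ω' h0 h0' h1 h3
    obtain ⟨l, hl1, hl2⟩ := hl a ω ω' h0 h0' h1 h3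
    refine ⟨l, hl1, fun j => ?_⟩
    have e1 : x ω j / 2 ^ h - x ω' j / 2 ^ h - ∑ i, l i * (d ω i j / 2 ^ h) =
        (x ω j - x ω' j - ∑ i, l i * d ω i j) / 2 ^ h := by
      have e2 : ∑ i, l i * (d ω i j / 2 ^ h) = (∑ i, l i * d ω i j) / 2 ^ h := by
        rw [Finset.sum_div]
        exact Finset.sum_congr rfl fun i _ => by ring
      rw [e2]
      ring
    rw [e1, abs_div, abs_of_pos h2, pow_add, ← div_div]
    exact div_le_div_of_nonneg_right (hl2 j) h2.le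

theorem dir_leM {s : Fin 2 → Fin 2 → ℝ} {M : ℝ} (hM : 1 ≤ M) (h : ∀ b j, |s b j| ≤ M) (b : Fin 2)
    (j : Fin 4) : |dir s b j| ≤ M := by
  have h0 : 0 ≤ M := by linarith
  unfold dir
  fin_cases b <;> fin_cases j <;> simp [h, hM, h0]

theorem dd_leM {s : Fin 3 → Fin 2 → Fin 2 → ℝ} {M : ℝ} (hM : 1 ≤ M) (h : ∀ i b j, |s i b j| ≤ M)
    (b2 b3 : Fin 2) (i j : Fin 4) : |dd s b2 b3 i j| ≤ M := by
  unfold dd
  fin_cases i
  · exact dir_leM hM (h 0) 0 j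
  · exact dir_leM hM (h 0) 1 j
  · exact dir_leM hM (h 1) b2 j
  · exact dir_leM hM (h 2) b3 j

theorem prod_le {M a b : ℝ} (ha : |a| ≤ M) (hb : |b| ≤ 2 * M) : |a * b| ≤ 2 * M ^ 2 := by
  rw [abs_mul]
  have h0 : 0 ≤ M := (abs_nonneg a).trans ha
  calc |a| * |b| ≤ M * (2 * M) := mul_le_mul ha hb (abs_nonneg _) h0
    _ = 2 * M ^ 2 := by ring

theorem al_leM {s : Fin 2 → Fin 2 → ℝ} {r : Fin 2 → ℝ} {M : ℝ} (hM : 1 ≤ M)
    (h : ∀ b j, |s b j| ≤ M) (hr : ∀ j, |r j| ≤ 2 * M) (k : Fin 4) : |al s r k| ≤ 4 * M ^ 2 := by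
  have h3 : ∀ (a b c d : ℝ), |a| ≤ M → |b| ≤ 2 * M → |c| ≤ M → |d| ≤ 2 * M →
      |-(a * b) + c * d| ≤ 4 * M ^ 2 := by
    intro a b c d ha hb hc hd
    have e1 := prod_le ha hb
    have e2 := prod_le hc hd
    rw [abs_le] at e1 e2 ⊢
    constructor <;> linarith
  have h4 : 2 * M ≤ 4 * M ^ 2 := by nlinarith
  unfold al
  fin_cases k
  · exact h3 _ _ _ _ (h 0 0) (hr 1) (h 0 1) (hr 0)
  · exact h3 _ _ _ _ (h 1 0) (hr 1) (h 1 1) (hr 0)
  · exact (hr 1).trans h4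
  · change |-r 0| ≤ 4 * M ^ 2
    rw [abs_neg]
    exact (hr 0).trans h4

theorem be_leM {s : Fin 2 → Fin 2 → ℝ} {p : Fin 2 → ℝ} {M : ℝ} (hM : 1 ≤ M)
    (h : ∀ b j, |s b j| ≤ M) (hp : ∀ j, |p j| ≤ 2 * M) (k : Fin 4) : |be s p k| ≤ 4 * M ^ 2 := by
  have h3 : ∀ (a b c d : ℝ), |a| ≤ 2 * M → |b| ≤ M → |c| ≤ 2 * M → |d| ≤ M →
      |-(a * b) + c * d| ≤ 4 * M ^ 2 := by
    intro a b c d ha hb hc hd
    have e1 := prod_le hb ha
    have e2 := prod_le hd hc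
    rw [mul_comm] at e1 e2
    rw [abs_le] at e1 e2 ⊢
    constructor <;> linarith
  have h4 : 2 * M ≤ 4 * M ^ 2 := by nlinarith
  unfold be
  fin_cases k
  · exact h3 _ _ _ _ (hp 0) (h 0 1) (hp 1) (h 0 0)
  · exact h3 _ _ _ _ (hp 0) (h 1 1) (hp 1) (h 1 0)
  · change |-p 1| ≤ 4 * M ^ 2
    rw [abs_neg]
    exact (hp 1).trans h4
  · exact (hp 0).trans h4

theorem eD_leM {s : Fin 3 → Fin 2 → Fin 2 → ℝ} {M : ℝ} (hM1 : 1 ≤ M)
    (h : ∀ i b j, |s i b j| ≤ M) (b2 b3 : Fin 2)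
    {D E : ℝ} (hD : |D| ≤ E) (hE : 1 ≤ E) (i k : Fin 4) :
    |eD s b2 b3 D i k| ≤ 9 * M ^ 2 * E := by
  have hr : ∀ j, |s 2 b3 j - s 0 b3 j| ≤ 2 * M := fun j => by
    have e1 := h 2 b3 j
    have e2 := h 0 b3 j
    rw [abs_le] at *
    constructor <;> linarith
  have hp : ∀ j, |s 1 b2 j - s 0 b2 j| ≤ 2 * M := fun j => by
    have e1 := h 1 b2 j
    have e2 := h 0 b2 j
    rw [abs_le] at *
    constructor <;> linarith
  have hM2 : 1 ≤ M ^ 2 := one_le_pow₀ hM1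
  have hME : 1 ≤ M ^ 2 * E := by nlinarith
  have a1 : |al (s 0) (fun j => s 2 b3 j - s 0 b3 j) k * D| ≤ 4 * (M ^ 2 * E) := by
    rw [abs_mul]
    have := mul_le_mul (al_leM hM1 (h 0) hr k) hD (abs_nonneg _) (by positivity)
    linarith
  have a2 : |be (s 0) (fun j => s 1 b2 j - s 0 b2 j) k * D| ≤ 4 * (M ^ 2 * E) := by
    rw [abs_mul]
    have := mul_le_mul (be_leM hM1 (h 0) hp k) hD (abs_nonneg _) (by positivity)
    linarith
  have h3 : ∀ (P Q R : Prop) [Decidable P] [Decidable Q] [Decidable R] (u v : ℝ),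
      |u| ≤ 4 * (M ^ 2 * E) → |v| ≤ 4 * (M ^ 2 * E) →
      |(if P then 1 else 0) - (if Q then u else 0) - (if R then v else 0)| ≤ 9 * M ^ 2 * E := by
    intro P Q R _ _ _ u v hu hv
    have e1 : |(if P then (1 : ℝ) else 0)| ≤ M ^ 2 * E := by
      split_ifs
      · rw [abs_one]; exact hME
      · rw [abs_zero]; linarith
    have e2 : |(if Q then u else 0)| ≤ 4 * (M ^ 2 * E) := by
      split_ifs
      · exact hu
      · rw [abs_zero]; linarith
    have e3 : |(if R then v else 0)| ≤ 4 * (M ^ 2 * E) := by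
      split_ifs
      · exact hv
      · rw [abs_zero]; linarith
    rw [abs_le] at *
    constructor <;> linarith
  unfold eD
  fin_cases i
  · exact h3 _ _ _ _ _ a1 a2
  · exact h3 _ _ _ _ _ a1 a2
  · exact a1.trans (by linarith)
  · exact a2.trans (by linarith)

theorem one_dirM {x x' : Fin 4 → ℝ} {s : Fin 2 → Fin 2 → ℝ} {M : ℝ} (hM : 1 ≤ M)
    (hs : ∀ b j, |s b j| ≤ M) (b : Fin 2)
    {B : ℝ} (hB : 0 ≤ B) {R : ℕ}
    (h : ∀ j : Fin 2, |x (Fin.natAdd 2 j) - x' (Fin.natAdd 2 j) -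
        (s 0 j * (x 0 - x' 0) + s 1 j * (x 1 - x' 1))| ≤ B / 2 ^ R)
    (ho : |bas x (oth b) - bas x' (oth b)| ≤ 1 / 2 ^ R) (j : Fin 4) :
    |x j - x' j - (bas x b - bas x' b) * dir s b j| ≤ (B + M) / 2 ^ R := by
  have h2 : (0 : ℝ) < 2 ^ R := by positivity
  have e0 : (B + M) / 2 ^ R = B / 2 ^ R + M * (1 / 2 ^ R) := by ring
  have hB2 : 0 ≤ B / 2 ^ R := by positivity
  have h12 : 0 ≤ 1 / (2 : ℝ) ^ R := by positivity
  have hM12 : 1 / (2 : ℝ) ^ R ≤ M * (1 / 2 ^ R) := by nlinarith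
  rw [e0]
  have hm : ∀ (a t : ℝ), |a| ≤ M → |t| ≤ 1 / 2 ^ R → |a * t| ≤ M * (1 / 2 ^ R) := by
    intro a t ha ht
    rw [abs_mul]
    exact mul_le_mul ha ht (abs_nonneg _) (by linarith)
  have h0 := h 0
  have h1 := h 1
  have k0 : (Fin.natAdd 2 (0 : Fin 2)) = (2 : Fin 4) := rfl
  have k1 : (Fin.natAdd 2 (1 : Fin 2)) = (3 : Fin 4) := rfl
  rw [k0] at h0
  rw [k1] at h1
  fin_cases b
  · have ho' : |x 1 - x' 1| ≤ 1 / 2 ^ R := ho
    fin_cases j
    · change |x 0 - x' 0 - (x 0 - x' 0) * 1| ≤ _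
      rw [mul_one, sub_self, abs_zero]
      linarith
    · change |x 1 - x' 1 - (x 0 - x' 0) * 0| ≤ _
      rw [mul_zero, sub_zero]
      linarith
    · change |x 2 - x' 2 - (x 0 - x' 0) * s 0 0| ≤ _
      have e1 := hm _ _ (hs 1 0) ho'
      rw [abs_le] at *
      constructor <;> linarith
    · change |x 3 - x' 3 - (x 0 - x' 0) * s 0 1| ≤ _
      have e1 := hm _ _ (hs 1 1) ho'
      rw [abs_le] at *
      constructor <;> linarith
  · have ho' : |x 0 - x' 0| ≤ 1 / 2 ^ R := ho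
    fin_cases j
    · change |x 0 - x' 0 - (x 1 - x' 1) * 0| ≤ _
      rw [mul_zero, sub_zero]
      linarith
    · change |x 1 - x' 1 - (x 1 - x' 1) * 1| ≤ _
      rw [mul_one, sub_self, abs_zero]
      linarith
    · change |x 2 - x' 2 - (x 1 - x' 1) * s 1 0| ≤ _
      have e1 := hm _ _ (hs 0 0) ho'
      rw [abs_le] at *
      constructor <;> linarith
    · change |x 3 - x' 3 - (x 1 - x' 1) * s 1 1| ≤ _
      have e1 := hm _ _ (hs 0 1) ho'
      rw [abs_le] at *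
      constructor <;> linarith

/-- The entropy of one coordinate of size `2 ^ h`. -/
theorem one_coordh {p : Ω → ℝ} (hp : IsLaw p) {f : Ω → ℝ} {R h : ℕ}
    (hx : ∀ ω, 0 < p ω → |f ω| ≤ 2 ^ h) (W : Ω → T) :
    CH p (fun ω => ⌊(2 : ℝ) ^ R * f ω⌋) W ≤ R * Real.log 2 + h + 2 := by
  have h2 : (0 : ℝ) < 2 ^ h := by positivity
  have h1 := one_coord (R := R + h) hp (f := fun ω => f ω / 2 ^ h) (fun ω h0 => by
    rw [abs_div, abs_of_pos h2, div_le_one h2]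
    exact hx ω h0) W
  have e1 : (fun ω => ⌊(2 : ℝ) ^ (R + h) * (f ω / 2 ^ h)⌋) = fun ω => ⌊(2 : ℝ) ^ R * f ω⌋ := by
    funext ω
    congr 1
    rw [pow_add]
    field_simp
  rw [e1] at h1
  have l2 : Real.log 2 ≤ 1 := by
    have := Real.log_two_lt_d9
    linarith
  have e2 : (h : ℝ) * Real.log 2 ≤ h * 1 := mul_le_mul_of_nonneg_left l2 (Nat.cast_nonneg h)
  push_cast at h1
  linarith

/-- The number of bits in `mk4h`. -/
noncomputable def tbh (h : ℕ) (δ B : ℝ) : ℝ := th h (9 * (2 ^ h) ^ 2 * δ⁻¹) (B + 2 ^ h)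

/-- The constant of `mk4h`. -/
noncomputable def C4h : ℝ := 2 * Cd 4 3 + 6

/-- **Three leaves through the point**, coordinates and slopes of size `2 ^ h`. -/
theorem mk4h {p : Ω → ℝ} (hp : IsLaw p) {x : Ω → Fin 4 → ℝ}
    {s : Ω → Fin 3 → Fin 2 → Fin 2 → ℝ} {B δ : ℝ} {R h : ℕ} (hB : 0 ≤ B) (hδ : 0 < δ) (hδ1 : δ ≤ 1)
    (hx : ∀ ω, 0 < p ω → ∀ j, |x ω j| ≤ 2 ^ h)
    (hs : ∀ ω, 0 < p ω → ∀ i b j, |s ω i b j| ≤ 2 ^ h)
    (b2 b3 : Fin 2) (hdt : ∀ ω, 0 < p ω → δ ≤ |dt (s ω) b2 b3|)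
    {Λ : Fin 3 → Type} (K : ∀ i, Ω → Λ i) (W : Ω → κ)
    (hl : ∀ i ω ω', 0 < p ω → 0 < p ω' → K i ω = K i ω' → W ω = W ω' → ∀ j : Fin 2,
      |x ω (Fin.natAdd 2 j) - x ω' (Fin.natAdd 2 j) -
        (s ω i 0 j * (x ω 0 - x ω' 0) + s ω i 1 j * (x ω 1 - x ω' 1))| ≤ B / 2 ^ R)
    {e : Fin 3 → ℝ} (hf : ∀ i, 2 * R * Real.log 2 - e i ≤
      CH p (fun ω => fl R (bas (x ω))) (fun ω => (K i ω, W ω))) :
    4 * R * Real.log 2 - (e 0 + e 1 + e 2) - C4h * (√(tbh h δ B * R) + tbh h δ B) ≤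
      CH p (fun ω => fl R (x ω)) W := by
  classical
  have hp0 := hp.nonneg
  have hδi : 1 ≤ δ⁻¹ := (one_le_inv₀ hδ).2 hδ1
  have hM : (1 : ℝ) ≤ 2 ^ h := one_le_pow₀ (by norm_num)
  have hK0 : (0 : ℝ) ≤ 9 * (2 ^ h) ^ 2 * δ⁻¹ := by positivity
  have hB1 : (0 : ℝ) ≤ B + 2 ^ h := by linarith
  have ht : 1 + (h : ℝ) ≤ tbh h δ B := by
    have h1 : 1 ≤ tt (2 ^ h * (9 * (2 ^ h) ^ 2 * δ⁻¹)) (B + 2 ^ h) :=
      one_le_tt (by positivity) hB1
    unfold tbh th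
    linarith
  have hh0 : (0 : ℝ) ≤ h := Nat.cast_nonneg h
  have hne : ∀ ω, 0 < p ω → dt (s ω) b2 b3 ≠ 0 := by
    intro ω h0 h
    have h1 := hdt ω h0
    rw [h, abs_zero] at h1
    linarith
  have hbas : ∀ ω, 0 < p ω → ∀ b, |bas (x ω) b| ≤ 2 ^ h := by
    intro ω h0 b
    fin_cases b
    · exact hx ω h0 0
    · exact hx ω h0 1
  set ex : Fin 3 → Ω → ℤ := ![fun _ => 0, fun ω => ⌊(2 : ℝ) ^ R * bas (x ω) (oth b2)⌋,
    fun ω => ⌊(2 : ℝ) ^ R * bas (x ω) (oth b3)⌋] with hex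
  have main := mkdh (K := 9 * (2 ^ h) ^ 2 * δ⁻¹) (B := B + 2 ^ h) hp (x := x)
    (d := fun ω => dd (s ω) b2 b3) (e := fun ω => eD (s ω) b2 b3 (dt (s ω) b2 b3)⁻¹) R h hK0 hB1 hx
    (fun ω h0 v j => dd_inv (s ω) b2 b3 (mul_inv_cancel₀ (hne ω h0)) v j)
    (fun ω h0 i j => dd_leM hM (hs ω h0) b2 b3 i j)
    (fun ω h0 i j => eD_leM hM (hs ω h0) b2 b3 (by
      rw [abs_inv]
      exact inv_anti₀ hδ (hdt ω h0)) hδi i j) gg
    (fun a ω => (K a ω, ex a ω)) W ?_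
  · have low0 : 2 * R * Real.log 2 - e 0 ≤
        CH p (fun ω => fl R (x ω)) (fun ω => ((K 0 ω, ex 0 ω), W ω)) := by
      refine (hf 0).trans ?_
      have e1 : CH p (fun ω => fl R (x ω)) (fun ω => ((K 0 ω, ex 0 ω), W ω)) =
          CH p (fun ω => fl R (x ω)) (fun ω => (K 0 ω, W ω)) := by
        refine CH_congr hp0 (fun _ _ _ _ h => (Prod.ext_iff.1 h).1)
          (fun _ _ _ _ h => (Prod.ext_iff.1 h).1) ?_ ?_
        · intro ω ω' _ _ hh
          simp only [Prod.mk.injEq] at hh ⊢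
          exact ⟨hh.1.1, hh.2⟩
        · intro ω ω' _ _ hh
          simp only [Prod.mk.injEq] at hh ⊢
          exact ⟨⟨hh.1, rfl⟩, hh.2⟩
      rw [e1]
      refine CH_mono_left hp0 fun ω ω' _ _ hh => ?_
      have h1 : fl R (x ω) = fl R (x ω') := (Prod.ext_iff.1 hh).1
      funext b
      fin_cases b
      · exact congrFun h1 0
      · exact congrFun h1 1
    have lowi : ∀ (i : Fin 3) (b : Fin 2),
        (∀ ω, ex i ω = ⌊(2 : ℝ) ^ R * bas (x ω) (oth b)⌋) →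
        R * Real.log 2 - e i - (h + 2) ≤
          CH p (fun ω => fl R (x ω)) (fun ω => ((K i ω, ex i ω), W ω)) := by
      intro i b hib
      have e1 : CH p (fun ω => fl R (bas (x ω))) (fun ω => ((K i ω, ex i ω), W ω)) ≤
          CH p (fun ω => fl R (x ω)) (fun ω => ((K i ω, ex i ω), W ω)) := by
        refine CH_mono_left hp0 fun ω ω' _ _ hh => ?_
        have h1 : fl R (x ω) = fl R (x ω') := (Prod.ext_iff.1 hh).1
        funext b
        fin_cases b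
        · exact congrFun h1 0
        · exact congrFun h1 1
      have e2 : CH p (fun ω => (fl R (bas (x ω)), ex i ω)) (fun ω => (K i ω, W ω)) =
          CH p (fun ω => fl R (bas (x ω))) (fun ω => (ex i ω, (K i ω, W ω))) +
            CH p (ex i) (fun ω => (K i ω, W ω)) := by
        have := CH_chain hp0 (fun ω => fl R (bas (x ω))) (ex i) (fun ω => (K i ω, W ω))
        linarith
      have e3 : CH p (fun ω => fl R (bas (x ω))) (fun ω => (ex i ω, (K i ω, W ω))) =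
          CH p (fun ω => fl R (bas (x ω))) (fun ω => ((K i ω, ex i ω), W ω)) := by
        refine CH_congr hp0 (fun _ _ _ _ h => (Prod.ext_iff.1 h).1)
          (fun _ _ _ _ h => (Prod.ext_iff.1 h).1) ?_ ?_
        · intro ω ω' _ _ hh
          simp only [Prod.mk.injEq] at hh ⊢
          exact ⟨⟨hh.2.1, hh.1⟩, hh.2.2⟩
        · intro ω ω' _ _ hh
          simp only [Prod.mk.injEq] at hh ⊢
          exact ⟨hh.1.2, hh.1.1, hh.2⟩
      have e4 : CH p (fun ω => fl R (bas (x ω))) (fun ω => (K i ω, W ω)) ≤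
          CH p (fun ω => (fl R (bas (x ω)), ex i ω)) (fun ω => (K i ω, W ω)) := by
        refine CH_mono_left hp0 fun ω ω' _ _ hh => ?_
        exact (Prod.ext_iff.1 (Prod.ext_iff.1 hh).1).1
      have e5 : CH p (ex i) (fun ω => (K i ω, W ω)) ≤ R * Real.log 2 + h + 2 := by
        have h1 : ex i = fun ω => ⌊(2 : ℝ) ^ R * bas (x ω) (oth b)⌋ := funext hib
        rw [h1]
        exact one_coordh hp (fun ω h0 => hbas ω h0 _) _
      have e6 := hf i
      linarith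
    have low1 := lowi 1 b2 (fun ω => rfl)
    have low2 := lowi 2 b3 (fun ω => rfl)
    rw [Fin.sum_univ_three] at main
    have hq : 0 ≤ √(tbh h δ B * R) := Real.sqrt_nonneg _
    have h9 : C4h * (√(tbh h δ B * R) + tbh h δ B) =
        2 * Cd 4 3 * (√(tbh h δ B * R) + tbh h δ B) +
        6 * (√(tbh h δ B * R) + tbh h δ B) := by
      unfold C4h
      ring
    change _ ≤ _ + 2 * Cd 4 3 * (√(tbh h δ B * R) + tbh h δ B) at main
    linarith
  · intro a ω ω' h0 h0' h1 h2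
    have hK : K a ω = K a ω' := (Prod.ext_iff.1 h1).1
    have hE : ex a ω = ex a ω' := (Prod.ext_iff.1 h1).2
    have hL := hl a ω ω' h0 h0' hK h2
    have hse := hs ω h0 a
    have h2R : (0 : ℝ) < 2 ^ R := by positivity
    have hfl : ∀ b, ⌊(2 : ℝ) ^ R * bas (x ω) b⌋ = ⌊(2 : ℝ) ^ R * bas (x ω') b⌋ →
        |bas (x ω) b - bas (x ω') b| ≤ 1 / 2 ^ R := by
      intro b hb
      have h3 := floor_same hb
      rw [← mul_sub, abs_mul, abs_of_pos h2R] at h3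
      rw [le_div_iff₀ h2R]
      linarith
    fin_cases a
    · refine ⟨![x ω 0 - x ω' 0, x ω 1 - x ω' 1, 0, 0], ?_, ?_⟩
      · intro i hi
        fin_cases i
        · exact absurd rfl hi
        · exact absurd rfl hi
        · rfl
        · rfl
      · have hL0 := hL 0
        have hL1 := hL 1
        have hle : B / 2 ^ R ≤ (B + 2 ^ h) / 2 ^ R :=
          div_le_div_of_nonneg_right (by linarith) h2R.le
        have hz : 0 ≤ (B + 2 ^ h) / 2 ^ R := by positivity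
        intro j
        rw [Fin.sum_univ_four]
        fin_cases j
        · change |x ω 0 - x ω' 0 - ((x ω 0 - x ω' 0) * 1 + (x ω 1 - x ω' 1) * 0 +
            0 * dd (s ω) b2 b3 2 0 + 0 * dd (s ω) b2 b3 3 0)| ≤ _
          have e1 : x ω 0 - x ω' 0 - ((x ω 0 - x ω' 0) * 1 + (x ω 1 - x ω' 1) * 0 +
            0 * dd (s ω) b2 b3 2 0 + 0 * dd (s ω) b2 b3 3 0) = 0 := by ring
          rw [e1, abs_zero]
          exact hz
        · change |x ω 1 - x ω' 1 - ((x ω 0 - x ω' 0) * 0 + (x ω 1 - x ω' 1) * 1 +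
            0 * dd (s ω) b2 b3 2 1 + 0 * dd (s ω) b2 b3 3 1)| ≤ _
          have e1 : x ω 1 - x ω' 1 - ((x ω 0 - x ω' 0) * 0 + (x ω 1 - x ω' 1) * 1 +
            0 * dd (s ω) b2 b3 2 1 + 0 * dd (s ω) b2 b3 3 1) = 0 := by ring
          rw [e1, abs_zero]
          exact hz
        · refine le_trans (le_of_eq ?_) (hL0.trans hle)
          congr 1
          change x ω 2 - x ω' 2 - ((x ω 0 - x ω' 0) * s ω 0 0 0 + (x ω 1 - x ω' 1) * s ω 0 1 0 +
            0 * dd (s ω) b2 b3 2 2 + 0 * dd (s ω) b2 b3 3 2) = x ω 2 - x ω' 2 -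
            (s ω 0 0 0 * (x ω 0 - x ω' 0) + s ω 0 1 0 * (x ω 1 - x ω' 1))
          ring
        · refine le_trans (le_of_eq ?_) (hL1.trans hle)
          congr 1
          change x ω 3 - x ω' 3 - ((x ω 0 - x ω' 0) * s ω 0 0 1 + (x ω 1 - x ω' 1) * s ω 0 1 1 +
            0 * dd (s ω) b2 b3 2 3 + 0 * dd (s ω) b2 b3 3 3) = x ω 3 - x ω' 3 -
            (s ω 0 0 1 * (x ω 0 - x ω' 0) + s ω 0 1 1 * (x ω 1 - x ω' 1))
          ring
    · have h5 := one_dirM hM hse b2 hB hL (hfl _ hE)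
      refine ⟨![0, 0, bas (x ω) b2 - bas (x ω') b2, 0], ?_, ?_⟩
      · intro i hi
        fin_cases i
        · rfl
        · rfl
        · exact absurd rfl hi
        · rfl
      · intro j
        rw [Fin.sum_univ_four]
        refine le_trans (le_of_eq ?_) (h5 j)
        congr 1
        change x ω j - x ω' j - (0 * dd (s ω) b2 b3 0 j + 0 * dd (s ω) b2 b3 1 j +
          (bas (x ω) b2 - bas (x ω') b2) * dir (s ω 1) b2 j + 0 * dd (s ω) b2 b3 3 j) =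
          x ω j - x ω' j - (bas (x ω) b2 - bas (x ω') b2) * dir (s ω 1) b2 j
        ring
    · have h5 := one_dirM hM hse b3 hB hL (hfl _ hE)
      refine ⟨![0, 0, 0, bas (x ω) b3 - bas (x ω') b3], ?_, ?_⟩
      · intro i hi
        fin_cases i
        · rfl
        · rfl
        · rfl
        · exact absurd rfl hi
      · intro j
        rw [Fin.sum_univ_four]
        refine le_trans (le_of_eq ?_) (h5 j)
        congr 1
        change x ω j - x ω' j - (0 * dd (s ω) b2 b3 0 j + 0 * dd (s ω) b2 b3 1 j +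
          0 * dd (s ω) b2 b3 2 j + (bas (x ω) b3 - bas (x ω') b3) * dir (s ω 2) b3 j) =
          x ω j - x ω' j - (bas (x ω) b3 - bas (x ω') b3) * dir (s ω 2) b3 j
        ring

theorem tbh_le {h : ℕ} {δ B : ℝ} (hB : 0 ≤ B) (hδ : 0 < δ) (hδ1 : δ ≤ 1) :
    tbh h δ B ≤ 4 + 5 * h + Real.log δ⁻¹ + Real.log (B + 2) := by
  have hδi : 1 ≤ δ⁻¹ := (one_le_inv₀ hδ).2 hδ1
  have hh0 : (0 : ℝ) ≤ h := Nat.cast_nonneg h
  have hM : (1 : ℝ) ≤ 2 ^ h := one_le_pow₀ (by norm_num)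
  have l10 : Real.log 10 ≤ 3 := by
    have : Real.log 10 ≤ Real.log (Real.exp 3) := by
      refine Real.log_le_log (by norm_num) ?_
      have h1 : Real.exp 3 = Real.exp 1 * (Real.exp 1 * Real.exp 1) := by
        rw [← Real.exp_add, ← Real.exp_add]; norm_num
      have h2 := Real.exp_one_gt_d9
      rw [h1]
      nlinarith
    rwa [Real.log_exp] at this
  have l2 : Real.log 2 ≤ 1 := by
    have := Real.log_two_lt_d9
    linarith
  have lh : Real.log ((2 : ℝ) ^ h) ≤ h := by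
    rw [Real.log_pow]
    have := mul_le_mul_of_nonneg_left l2 hh0
    linarith
  have e1 : Real.log (2 ^ h * (9 * (2 ^ h) ^ 2 * δ⁻¹) + 1) ≤ 3 + 3 * h + Real.log δ⁻¹ := by
    have h1 : (2 : ℝ) ^ h * (9 * (2 ^ h) ^ 2 * δ⁻¹) + 1 ≤ 10 * ((2 ^ h) ^ 3 * δ⁻¹) := by
      have h2 : (1 : ℝ) ≤ (2 ^ h) ^ 3 * δ⁻¹ :=
        one_le_mul_of_one_le_of_one_le (one_le_pow₀ hM) hδi
      nlinarith
    have h3 : Real.log (2 ^ h * (9 * (2 ^ h) ^ 2 * δ⁻¹) + 1) ≤
        Real.log 10 + (Real.log ((2 ^ h) ^ 3) + Real.log δ⁻¹) := by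
      rw [← Real.log_mul (x := (2 ^ h) ^ 3) (by positivity) (by positivity),
        ← Real.log_mul (by norm_num) (by positivity)]
      exact Real.log_le_log (by positivity) h1
    rw [Real.log_pow] at h3
    push_cast at h3
    linarith
  have e2 : Real.log (B + 2 ^ h + 1) ≤ Real.log (B + 2) + h := by
    have h1 : B + 2 ^ h + 1 ≤ (B + 2) * 2 ^ h := by nlinarith
    have h3 : Real.log (B + 2 ^ h + 1) ≤ Real.log (B + 2) + Real.log (2 ^ h) := by
      rw [← Real.log_mul (by positivity) (by positivity)]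
      exact Real.log_le_log (by positivity) h1
    linarith
  unfold tbh th tt
  linarith

end Pool.R2M
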