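import Pool.Agent.H99.JM.MK

/-!
# Multilinear Kakeya in entropy form, with directions

`mkd`: a random point `x`, directions `d ω i` (with a dual basis `e`, `|e| ≤ K`), and labels: two
samples with the same label `Lam a` (and world `W`) differ by a combination of the directions of the
group `a`, up to `B / 2 ^ R`. Then the sum of the entropies of `x` given the labels is at most the
entropy of `x`, up to `C (√(t R) + t)`, `t = 1 + log (K + 1) + log (B + 1)`.
-/

set_option autoImplicit false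

namespace Pool.R2M

open Finset Real
open Pool.Agent.H49.Ent Pool.Agent.H32.Dense Pool.STK Pool.MKE

variable {Ω S T U κ : Type} [Fintype Ω] {c r : ℕ}

/-- A left inverse is a right inverse. -/
theorem dual_of_inv {d e : Fin c → Fin c → ℝ}
    (h : ∀ (v : Fin c → ℝ) (j : Fin c), v j = ∑ i, d i j * ∑ k, e i k * v k) (i l : Fin c) :
    ∑ k, e i k * d l k = if i = l then 1 else 0 := by
  classical
  let D : Matrix (Fin c) (Fin c) ℝ := Matrix.of fun j i => d i j
  let E : Matrix (Fin c) (Fin c) ℝ := Matrix.of fun i k => e i k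
  have h1 : D * E = 1 := by
    ext j k
    have h2 := h (fun l => if l = k then 1 else 0) j
    rw [Matrix.mul_apply, Matrix.one_apply]
    simp only [D, E, Matrix.of_apply]
    simp only [mul_ite, mul_one, mul_zero, Finset.sum_ite_eq', Finset.mem_univ, if_true] at h2
    exact h2.symm
  have h2 : E * D = 1 := mul_eq_one_comm.1 h1
  have h3 := congrFun (congrFun h2 i) l
  rw [Matrix.mul_apply, Matrix.one_apply] at h3
  simpa only [D, E, Matrix.of_apply] using h3

/-- The number of bits of a basis and of an error. -/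
noncomputable def tt (K B : ℝ) : ℝ := 1 + Real.log (K + 1) + Real.log (B + 1)

/-- The constant of one block. -/
noncomputable def C1 (c r : ℕ) : ℝ :=
  c * (Real.log (2 * c + 3) + 1) +
    r * (c * Real.log (2 * (c * (c + 1) + 1) + 1) + c * (Real.log (2 * c + 3) + 1))

theorem C1_nonneg (c r : ℕ) : 0 ≤ C1 c r := by
  unfold C1
  have h1 : (0 : ℝ) ≤ Real.log (2 * c + 3) := Real.log_nonneg (by linarith [Nat.cast_nonneg (α := ℝ) c])
  have h2 : (0 : ℝ) ≤ Real.log (2 * (c * (c + 1) + 1) + 1) := Real.log_nonneg (by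
    have : (0 : ℝ) ≤ (c : ℝ) * (c + 1) := by positivity
    linarith)
  positivity

theorem one_le_tt {K B : ℝ} (hK : 0 ≤ K) (hB : 0 ≤ B) : 1 ≤ tt K B := by
  unfold tt
  have h1 := Real.log_nonneg (by linarith : 1 ≤ K + 1)
  have h2 := Real.log_nonneg (by linarith : 1 ≤ B + 1)
  linarith

theorem loss_le (c r : ℕ) {K B : ℝ} (hK : 0 ≤ K) (hB : 0 ≤ B) :
    loss c r K (c * K * B) ≤ C1 c r * tt K B := by
  have ht := one_le_tt hK hB
  have hc : (0 : ℝ) ≤ c := Nat.cast_nonneg c
  have hr : (0 : ℝ) ≤ r := Nat.cast_nonneg r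
  have k1 := Real.log_nonneg (by linarith : 1 ≤ K + 1)
  have k2 := Real.log_nonneg (by linarith : 1 ≤ B + 1)
  have k3 : (0 : ℝ) ≤ Real.log (2 * c + 3) := Real.log_nonneg (by linarith)
  have k4 : (0 : ℝ) ≤ Real.log (2 * (c * (c + 1) + 1) + 1) := Real.log_nonneg (by
    have : (0 : ℝ) ≤ (c : ℝ) * (c + 1) := by positivity
    linarith)
  have a1 : Real.log (2 * (c * (K + 1) + 1) + 1) ≤ (Real.log (2 * c + 3) + 1) * tt K B := by
    have e1 : 2 * (c * (K + 1) + 1) + 1 ≤ (2 * c + 3) * (K + 1) := by nlinarith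
    have e2 : Real.log (2 * (c * (K + 1) + 1) + 1) ≤ Real.log (2 * c + 3) + Real.log (K + 1) := by
      rw [← Real.log_mul (by positivity) (by positivity)]
      exact Real.log_le_log (by positivity) e1
    have e3 : Real.log (2 * c + 3) * 1 ≤ Real.log (2 * c + 3) * tt K B :=
      mul_le_mul_of_nonneg_left ht k3
    have e4 : Real.log (K + 1) ≤ tt K B := by unfold tt; linarith
    linarith
  have a2 : Real.log (2 * (c * (c + 1) + 1) + 1) ≤
      Real.log (2 * (c * (c + 1) + 1) + 1) * tt K B := by nlinarith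
  have a3 : Real.log (2 * (c * K * B + c + 1) + 1) ≤ (Real.log (2 * c + 3) + 1) * tt K B := by
    have e0 : 0 ≤ K * B := mul_nonneg hK hB
    have e1 : 2 * (c * K * B + c + 1) + 1 ≤ (2 * c + 3) * ((K + 1) * (B + 1)) := by
      have e5 : 0 ≤ (c : ℝ) * K := mul_nonneg hc hK
      have e6 : 0 ≤ (c : ℝ) * B := mul_nonneg hc hB
      nlinarith
    have e2 : Real.log (2 * (c * K * B + c + 1) + 1) ≤
        Real.log (2 * c + 3) + (Real.log (K + 1) + Real.log (B + 1)) := by
      rw [← Real.log_mul (x := K + 1) (by positivity) (by positivity),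
        ← Real.log_mul (by positivity) (by positivity)]
      exact Real.log_le_log (by positivity) e1
    have e3 : Real.log (2 * c + 3) * 1 ≤ Real.log (2 * c + 3) * tt K B :=
      mul_le_mul_of_nonneg_left ht k3
    have e4 : Real.log (K + 1) + Real.log (B + 1) ≤ tt K B := by unfold tt; linarith
    linarith
  have b1 := mul_le_mul_of_nonneg_left a1 hc
  have b2 := mul_le_mul_of_nonneg_left a2 hc
  have b3 := mul_le_mul_of_nonneg_left a3 hc
  have b4 := mul_le_mul_of_nonneg_left (add_le_add b2 b3) hr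
  unfold loss C1
  linarith

theorem ini_bd (c : ℕ) {K B : ℝ} (hK : 0 ≤ K) (hB : 0 ≤ B) (m : ℕ) :
    ini c K m ≤ 2 * c * tt K B + (c * c : ℕ) * (3 * tt K B + m) := by
  have ht := one_le_tt hK hB
  have hc : (0 : ℝ) ≤ c := Nat.cast_nonneg c
  have k1 := Real.log_nonneg (by linarith : 1 ≤ K + 1)
  have k2 := Real.log_nonneg (by linarith : 1 ≤ B + 1)
  have l7 : Real.log 7 ≤ 2 := by
    have : Real.log 7 ≤ Real.log (Real.exp 2) := by
      refine Real.log_le_log (by norm_num) ?_
      have h1 : Real.exp 2 = Real.exp 1 * Real.exp 1 := by rw [← Real.exp_add]; norm_num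
      have h2 := Real.exp_one_gt_d9
      rw [h1]
      nlinarith
    rwa [Real.log_exp] at this
  have l4 : Real.log 4 ≤ 2 := (Real.log_le_log (by norm_num) (by norm_num)).trans l7
  have l2 : Real.log 2 ≤ 1 := by
    have := Real.log_two_lt_d9
    linarith
  have h2m : (1 : ℝ) ≤ 2 ^ m := one_le_pow₀ (by norm_num)
  have a1 : Real.log (2 * (2 ^ m * (2 * K) + 1) + 1) ≤ 3 * tt K B + m := by
    have e1 : 2 * ((2 : ℝ) ^ m * (2 * K) + 1) + 1 ≤ 4 * (2 ^ m * (K + 1)) := by nlinarith
    have e2 : Real.log (2 * (2 ^ m * (2 * K) + 1) + 1) ≤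
        Real.log 4 + (Real.log (2 ^ m) + Real.log (K + 1)) := by
      rw [← Real.log_mul (x := 2 ^ m) (by positivity) (by positivity),
        ← Real.log_mul (by positivity) (by positivity)]
      exact Real.log_le_log (by positivity) e1
    rw [Real.log_pow] at e2
    have e3 : (m : ℝ) * Real.log 2 ≤ m * 1 := mul_le_mul_of_nonneg_left l2 (Nat.cast_nonneg m)
    have e4 : Real.log (K + 1) ≤ tt K B := by unfold tt; linarith
    linarith
  have b1 := mul_le_mul_of_nonneg_left a1 (Nat.cast_nonneg (α := ℝ) (c * c))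
  have b2 : (c : ℝ) * Real.log 7 ≤ 2 * c * tt K B := by
    have h3 : Real.log 7 ≤ 2 * tt K B := by linarith
    nlinarith
  unfold ini
  linarith

/-- The digits between `R'` and `R`. -/
theorem between {p : Ω → ℝ} (hp : IsLaw p) (x : Ω → Fin c → ℝ) {R' R : ℕ} (h : R' ≤ R)
    (V : Ω → T) :
    CH p (fun ω => fl R (x ω)) (fun ω => (fl R' (x ω), V ω)) ≤ c * (((R - R' : ℕ) : ℝ) + 2) := by
  have hc : (0 : ℝ) ≤ c := Nat.cast_nonneg c
  have h1 := CH_vecc (L := 2 ^ (R - R') + 1) hp (fun ω => fl R (x ω))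
    (fun ω => (fl R' (x ω), V ω)) ?_
  · refine h1.trans (mul_le_mul_of_nonneg_left ?_ hc)
    have h2m : (1 : ℝ) ≤ 2 ^ (R - R') := one_le_pow₀ (by norm_num)
    have e1 : 2 * ((2 : ℝ) ^ (R - R') + 1) + 1 ≤ 5 * 2 ^ (R - R') := by linarith
    have e2 : Real.log (2 * (2 ^ (R - R') + 1) + 1) ≤ Real.log 5 + Real.log (2 ^ (R - R')) := by
      rw [← Real.log_mul (by positivity) (by positivity)]
      exact Real.log_le_log (by positivity) e1
    rw [Real.log_pow] at e2
    have l5 : Real.log 5 ≤ 2 := by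
      have : Real.log 5 ≤ Real.log (Real.exp 2) := by
        refine Real.log_le_log (by norm_num) ?_
        have h1 : Real.exp 2 = Real.exp 1 * Real.exp 1 := by rw [← Real.exp_add]; norm_num
        have h2 := Real.exp_one_gt_d9
        rw [h1]
        nlinarith
      rwa [Real.log_exp] at this
    have l2 : Real.log 2 ≤ 1 := by
      have := Real.log_two_lt_d9
      linarith
    have e3 : (((R - R' : ℕ) : ℝ)) * Real.log 2 ≤ ((R - R' : ℕ) : ℝ) * 1 :=
      mul_le_mul_of_nonneg_left l2 (Nat.cast_nonneg _)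
    linarith
  · intro ω ω' _ _ hh k
    refine floor_two ?_
    have h3 : fl R' (x ω) = fl R' (x ω') := (Prod.ext_iff.1 hh).1
    have h4 := fl_same h3 k
    have h5 : (2 : ℝ) ^ R * x ω k - 2 ^ R * x ω' k =
        2 ^ (R - R') * (2 ^ R' * (x ω k - x ω' k)) := by
      have : (2 : ℝ) ^ R = 2 ^ (R - R') * 2 ^ R' := by
        rw [← pow_add]
        congr 1
        omega
      rw [this]
      ring
    have h6 : (0 : ℝ) < 2 ^ R' := by positivity
    have h7 : |(2 : ℝ) ^ R' * (x ω k - x ω' k)| ≤ 1 := by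
      rw [abs_mul, abs_of_pos h6]
      exact h4
    change |(2 : ℝ) ^ R * x ω k - 2 ^ R * x ω' k| ≤ 2 ^ (R - R')
    rw [h5, abs_mul, abs_of_pos (by positivity : (0 : ℝ) < 2 ^ (R - R'))]
    have h8 : (0 : ℝ) < 2 ^ (R - R') := by positivity
    nlinarith

/-- The constant of `mkd`. -/
noncomputable def Cd (c r : ℕ) : ℝ := 2 * C1 c r + r * (6 * c + 5 * (c * c : ℕ))

theorem Cd_nonneg (c r : ℕ) : 0 ≤ Cd c r := by
  have := C1_nonneg c r
  unfold Cd
  positivity

/-- **Multilinear Kakeya in entropy form, with directions.** -/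
theorem mkd {p : Ω → ℝ} (hp : IsLaw p) {x : Ω → Fin c → ℝ} {e d : Ω → Fin c → Fin c → ℝ}
    {K B : ℝ} (R : ℕ) (hK : 0 ≤ K) (hB : 0 ≤ B)
    (hx : ∀ ω, 0 < p ω → ∀ j, |x ω j| ≤ 1)
    (hinv : ∀ ω, 0 < p ω → ∀ (v : Fin c → ℝ) (j : Fin c),
      v j = ∑ i, d ω i j * ∑ k, e ω i k * v k)
    (hd : ∀ ω, 0 < p ω → ∀ i j, |d ω i j| ≤ 1) (he : ∀ ω, 0 < p ω → ∀ i j, |e ω i j| ≤ K)
    (g : Fin c → Fin r) {Λ : Fin r → Type} (Lam : ∀ a, Ω → Λ a) (W : Ω → κ)
    (hl : ∀ a ω ω', 0 < p ω → 0 < p ω' → Lam a ω = Lam a ω' → W ω = W ω' →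
      ∃ l : Fin c → ℝ, (∀ i, g i ≠ a → l i = 0) ∧
        ∀ j, |x ω j - x ω' j - ∑ i, l i * d ω i j| ≤ B / 2 ^ R) :
    ∑ a, CH p (fun ω => fl R (x ω)) (fun ω => (Lam a ω, W ω)) ≤
      CH p (fun ω => fl R (x ω)) W + Cd c r * (√(tt K B * R) + tt K B) := by
  classical
  have hp0 := hp.nonneg
  have ht := one_le_tt hK hB
  have ht0 : 0 < tt K B := by linarith
  have hR0 : (0 : ℝ) ≤ R := Nat.cast_nonneg R
  have hc : (0 : ℝ) ≤ c := Nat.cast_nonneg c
  have hr : (0 : ℝ) ≤ r := Nat.cast_nonneg r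
  have hcc : (0 : ℝ) ≤ (c * c : ℕ) := Nat.cast_nonneg _
  set q := √(tt K B * R) with hq
  have hq0 : 0 ≤ q := Real.sqrt_nonneg _
  have hq2 : q * q = tt K B * R := Real.mul_self_sqrt (mul_nonneg ht0.le hR0)
  obtain ⟨m, hm1, hm2, hm3⟩ : ∃ m : ℕ, 1 ≤ m ∧ q ≤ m ∧ (m : ℝ) ≤ q + 1 := by
    refine ⟨max 1 ⌈q⌉₊, le_max_left _ _, ?_, ?_⟩
    · exact (Nat.le_ceil q).trans (by exact_mod_cast le_max_right 1 ⌈q⌉₊)
    · have h1 := (Nat.ceil_lt_add_one hq0).le
      rw [Nat.cast_max]
      refine max_le ?_ h1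
      rw [Nat.cast_one]
      linarith
  set b := R / m with hb
  have hbR : m * b ≤ R := Nat.mul_div_le R m
  have hRb : R - m * b ≤ m := by
    have h1 : m * b + R % m = R := Nat.div_add_mod R m
    have h2 := Nat.mod_lt R (by omega : 0 < m)
    omega
  have hm0 : (0 : ℝ) < m := by exact_mod_cast hm1
  have hbq : (b : ℝ) * tt K B ≤ q := by
    have h1 : (m : ℝ) * b ≤ R := by exact_mod_cast hbR
    have hb0 : (0 : ℝ) ≤ b := Nat.cast_nonneg b
    have h2 : (m : ℝ) * (b * tt K B) ≤ q * q := by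
      rw [hq2]
      nlinarith
    have h3 : q * q ≤ m * q := mul_le_mul_of_nonneg_right hm2 hq0
    exact le_of_mul_le_mul_left (h2.trans h3) hm0
  have h2R : (2 : ℝ) ^ (m * b) ≤ 2 ^ R := pow_le_pow_right₀ (by norm_num) hbR
  have main := mk (B := c * K * B) hp (R := m * b) (m := m) (b := b) rfl (by positivity) hx hinv hd
    he g Lam W ?_
  · have e1 : ∀ a, CH p (fun ω => fl R (x ω)) (fun ω => (Lam a ω, W ω)) ≤
        CH p (fun ω => fl (m * b) (x ω)) (fun ω => (Lam a ω, W ω)) + c * (m + 2) := by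
      intro a
      have h1 : CH p (fun ω => fl R (x ω)) (fun ω => (Lam a ω, W ω)) =
          CH p (fun ω => (fl R (x ω), fl (m * b) (x ω))) (fun ω => (Lam a ω, W ω)) := by
        refine CH_congr hp0 ?_ ?_ (fun _ _ _ _ h => h) (fun _ _ _ _ h => h)
        · intro ω ω' _ _ hh
          have h1 : fl R (x ω) = fl R (x ω') := (Prod.ext_iff.1 hh).1
          exact Prod.ext h1 (fl_det hbR h1)
        · intro ω ω' _ _ hh
          exact (Prod.ext_iff.1 (Prod.ext_iff.1 hh).1).1
      rw [h1, CH_chain hp0]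
      have h2 := between hp x hbR (fun ω => (Lam a ω, W ω))
      have h3 : ((R - m * b : ℕ) : ℝ) ≤ m := by exact_mod_cast hRb
      have h4 : (c : ℝ) * (((R - m * b : ℕ) : ℝ) + 2) ≤ c * (m + 2) :=
        mul_le_mul_of_nonneg_left (by linarith) hc
      linarith
    have e2 : CH p (fun ω => fl (m * b) (x ω)) W ≤ CH p (fun ω => fl R (x ω)) W := by
      refine CH_mono_left hp0 fun ω ω' _ _ hh => ?_
      exact fl_det hbR (Prod.ext_iff.1 hh).1
    have e3 : ∑ a, CH p (fun ω => fl R (x ω)) (fun ω => (Lam a ω, W ω)) ≤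
        ∑ a, CH p (fun ω => fl (m * b) (x ω)) (fun ω => (Lam a ω, W ω)) + r * (c * (m + 2)) := by
      refine (Finset.sum_le_sum fun a _ => e1 a).trans (le_of_eq ?_)
      rw [Finset.sum_add_distrib, Finset.sum_const, Finset.card_univ, Fintype.card_fin,
        nsmul_eq_mul]
    have e4 : (b : ℝ) * loss c r K (c * K * B) ≤ C1 c r * q := by
      have h1 := mul_le_mul_of_nonneg_left (loss_le c r hK hB) (Nat.cast_nonneg (α := ℝ) b)
      have h2 := mul_le_mul_of_nonneg_left hbq (C1_nonneg c r)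
      linarith
    have e5 := mul_le_mul_of_nonneg_left (ini_bd c hK hB m) hr
    have e6 : (r : ℝ) * (2 * c * tt K B + (c * c : ℕ) * (3 * tt K B + m)) +
        r * (c * (m + 2)) ≤ r * (6 * c + 5 * (c * c : ℕ)) * (q + tt K B) := by
      have h1 : 2 * (c : ℝ) * tt K B + (c * c : ℕ) * (3 * tt K B + m) + c * (m + 2) ≤
          (6 * c + 5 * (c * c : ℕ)) * (q + tt K B) := by
        have h2 : (m : ℝ) ≤ q + tt K B := by linarith
        have h3 := mul_le_mul_of_nonneg_left h2 hcc
        have h4 := mul_le_mul_of_nonneg_left h2 hc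
        have h5 := mul_nonneg hcc hq0
        have h6 := mul_nonneg hc hq0
        have h7 := mul_le_mul_of_nonneg_left ht hc
        have h8 := mul_nonneg hcc ht0.le
        nlinarith
      have h2 := mul_le_mul_of_nonneg_left h1 hr
      linarith
    have e7 : C1 c r * q ≤ 2 * C1 c r * (q + tt K B) := by
      have := C1_nonneg c r
      nlinarith
    have e8 : Cd c r * (q + tt K B) = 2 * C1 c r * (q + tt K B) +
        r * (6 * c + 5 * (c * c : ℕ)) * (q + tt K B) := by
      unfold Cd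
      ring
    linarith
  · intro a ω ω' h0 h0' h1 h2 k hk
    obtain ⟨l, hl1, hl2⟩ := hl a ω ω' h0 h0' h1 h2
    have hdual := dual_of_inv (hinv ω h0)
    have e1 : ∑ j, e ω k j * (x ω j - x ω' j) =
        ∑ j, e ω k j * (x ω j - x ω' j - ∑ i, l i * d ω i j) := by
      have h3 : ∑ j, e ω k j * ∑ i, l i * d ω i j = 0 := by
        have h4 : ∑ j, e ω k j * ∑ i, l i * d ω i j = ∑ i, l i * ∑ j, e ω k j * d ω i j := by
          simp_rw [Finset.mul_sum]
          rw [Finset.sum_comm]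
          refine Finset.sum_congr rfl fun i _ => Finset.sum_congr rfl fun j _ => ?_
          ring
        rw [h4]
        refine Finset.sum_eq_zero fun i _ => ?_
        rw [hdual k i]
        by_cases hki : k = i
        · rw [← hki, hl1 k hk, zero_mul]
        · rw [if_neg hki, mul_zero]
      simp_rw [mul_sub] at h3 ⊢
      rw [Finset.sum_sub_distrib, Finset.sum_sub_distrib, Finset.sum_sub_distrib, h3, sub_zero]
    rw [e1]
    have h5 : (0 : ℝ) < 2 ^ R := by positivity
    have h6 : (0 : ℝ) < 2 ^ (m * b) := by positivity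
    calc |∑ j, e ω k j * (x ω j - x ω' j - ∑ i, l i * d ω i j)|
        ≤ ∑ j, |e ω k j * (x ω j - x ω' j - ∑ i, l i * d ω i j)| := Finset.abs_sum_le_sum_abs _ _
      _ ≤ ∑ _j : Fin c, K * (B / 2 ^ R) := by
          refine Finset.sum_le_sum fun j _ => ?_
          rw [abs_mul]
          exact mul_le_mul (he ω h0 k j) (hl2 j) (abs_nonneg _) hK
      _ = c * K * B / 2 ^ R := by
          rw [Finset.sum_const, Finset.card_univ, Fintype.card_fin, nsmul_eq_mul]
          ring
      _ ≤ c * K * B / 2 ^ (m * b) := by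
          refine div_le_div_of_nonneg_left (by positivity) h6 h2R

end Pool.R2M
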